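import Pool.Agent.U26.SG.Kur3

/-!
# Fourth moments of stationary waves in the plane with finite variance (MP_4fa179_mp)

Benjamini-Schramm limits of Laplace eigenfunctions of a compact Riemannian surface, rescaled to
eigenvalue `1`, are laws `μ` of stationary random fields on the plane with smooth samples and
`Δf + f = 0`. If the eigenfunctions are bounded in `L²` then `μ` has a finite second moment; nothing
else is known a priori, as `L⁴` norms of eigenfunctions may be unbounded. The definitions are those of
`Pool.Agent.N661.BR.Defs`, `Pool.Agent.N661.BR.Defs2` and `Pool.Agent.N661.BH.Stm`.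

The starting results on fourth moments of such fields (`ConditionalFourPoint`)
assume a finite fourth moment, or that `μ` is a limit point of a quantum ergodic sequence
(`ErgodicLimitPoints`). Here `μ` is an arbitrary stationary law of waves with finite second moment.
The theorem says that the conditional fourth moments, given the σ-algebra `I` of translation invariant
events, are finite and at most those of a Gaussian variable: `E[ℓ⁴ | I] ≤ 3 E[ℓ² | I]²` for every finite
linear combination `ℓ` of values of `f` (stated by integration over the invariant events, so that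
both sides may be infinite). In particular, ergodic laws have finite fourth moments; then their
kurtosis lies between `3/2` and `3`, and they are Gaussian to fourth order if there are no plane
waves.

Proof idea. Let `c` be a bound for `E[f(0)² | I]` on an invariant event `A`. Almost every sample `f` in
`A` is studied under dilations: the functions `z ↦ f(t z)`, `t → ∞`, solve `h² Δu + u = 0` with
`h = 1/t`. By the mean ergodic theorem the local correlations of the functions `W_k = (∂x - i∂y)^k f`
converge for a suitable sequence of `t`; by compensated compactness (the null forms of the library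
for quantum ergodic sequences) the local averages of `(|W_{2j+p}|² - |W_p|²)²` are at most
`4 c² + o(1)`. Stationarity turns this into a bound for the second moment of
`|W_{2j+p}|² - |W_p|²` on `A` which does not depend on `j`. The averages of the `|W_{2j+p}|²` over
`j < N`, summed over `p = 0, 1`, become independent of the point as `N → ∞`, so that
`|W_0|² + |W_1|²` has bounded oscillation in `L²`, and its local averages are bounded; so
`f(0)² = |W_0|²` is square integrable on `A`. The inequality then follows from the theory of
conditional four point functions in `Pool.Agent.R989`, applied to the conditional laws given `A`, and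
monotone convergence; linear combinations `ℓ` are treated by means of the law of the wave `ℓ(f(· + y))`
and the contraction property of conditional expectations in `L²`.

The parts of the proof which concern finite fourth moments are due to helpers 88, 319, 346, 433, 688,
882 and 934.
-/

set_option autoImplicit false
open MeasureTheory Filter Topology Complex ProbabilityTheory
open scoped ContDiff ENNReal

namespace Pool.Agent.Results.MP_4fa179_mp.FourthMoments

open Pool.Agent.W745.RW (lap)
open Pool.Agent.N661.BR (MW lin shift cov parallel IsStationary IsErgodic IsInfinitelyDivisible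
  IsGaussianLaw Gau4)
open Pool.Agent.N661.BH (HP IsQuantumErgodic IsLocalLimit)

/-- the σ-algebra `I` of the measurable sets of waves which, for every translation, agree with their
translate up to a `μ`-null set -/
@[reducible] def invariant (μ : Measure MW) : MeasurableSpace MW where
  MeasurableSet' A := MeasurableSet A ∧ ∀ x : ℂ, shift x ⁻¹' A =ᵐ[μ] A
  measurableSet_empty := (Pool.Agent.U26.SG.Inv μ).measurableSet_empty
  measurableSet_compl := (Pool.Agent.U26.SG.Inv μ).measurableSet_compl
  measurableSet_iUnion := (Pool.Agent.U26.SG.Inv μ).measurableSet_iUnion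

/-- **Result.** Let `μ` be a translation invariant law of smooth functions `f` on the plane with
`Δf + f = 0`, with `∫ f(0)² dμ < ∞`, and let `I = invariant μ`.
(1) For every finite linear combination `ℓ` of values of `f` and every invariant event `B`,
`∫_B ℓ⁴ dμ ≤ 3 ∫_B E[ℓ² | I]² dμ`, in `[0, ∞]`.
(2) Let `μ` be ergodic. Then `ℓ` has a finite fourth moment for every `ℓ`, and
`3/2 (∫ ℓ² dμ)² ≤ ∫ ℓ⁴ dμ ≤ 3 (∫ ℓ² dμ)²`. If `m ν` is the spectral measure of `μ` (`ν` a law of the
direction), then `∫ f(0)⁴ dμ = m² (3 - 3/2 parallel ν)`; and if `parallel ν = 0` then `μ` is `Gau4`: it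
is centred, its three point functions vanish and its four point functions are given by the formula of
Wick; in this case it is Gaussian if it is infinitely divisible.
(3) This applies to the following `μ`. Let `Ω ⊆ HP` be a nonempty open set of finite hyperbolic area,
let `u n` be real eigenfunctions of the hyperbolic Laplacian, `y² Δu + λ_n u = 0` on `HP`, `λ_n → ∞`,
which are quantum ergodic in the unit cotangent bundle over `Ω`, and let `μ` be a limit point of their
local laws, in random frames at random points of `Ω`. -/
theorem result :
    (∀ (μ : Measure MW) [IsProbabilityMeasure μ], IsStationary μ →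
      Integrable (fun f : MW => f 0 ^ 2) μ →
      (∀ (k : ℕ) (w : Fin k → ℂ) (t : Fin k → ℝ) (B : Set MW), MeasurableSet[invariant μ] B →
        ∫⁻ f in B, ENNReal.ofReal (lin w t f ^ 4) ∂μ ≤
          3 * ∫⁻ f in B, ENNReal.ofReal
            ((μ[fun f : MW => lin w t f ^ 2 | invariant μ]) f ^ 2) ∂μ) ∧
      (IsErgodic μ →
        (∀ (k : ℕ) (w : Fin k → ℂ) (t : Fin k → ℝ),
          Integrable (fun f => lin w t f ^ 4) μ ∧
          3 / 2 * (∫ f, lin w t f ^ 2 ∂μ) ^ 2 ≤ ∫ f, lin w t f ^ 4 ∂μ ∧
          ∫ f, lin w t f ^ 4 ∂μ ≤ 3 * (∫ f, lin w t f ^ 2 ∂μ) ^ 2) ∧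
        ∀ (m : ℝ) (ν : Measure ℝ), IsProbabilityMeasure ν →
          (∀ w w' : ℂ, ∫ f : MW, f w * f w' ∂μ = m * cov ν (w - w')) →
          ∫ f : MW, f 0 ^ 4 ∂μ = m ^ 2 * (3 - 3 / 2 * parallel ν) ∧
          (parallel ν = 0 → Gau4 μ ∧ (IsInfinitelyDivisible μ → IsGaussianLaw μ)))) ∧
    ∀ Ω : Set ℂ, IsOpen Ω → Ω ⊆ HP → Ω.Nonempty → IntegrableOn (fun z : ℂ => 1 / z.im ^ 2) Ω →
      ∀ lam : ℕ → ℝ, (∀ n, 0 < lam n) → Tendsto lam atTop atTop →
      ∀ u : ℕ → ℂ → ℝ, (∀ n, ContDiffOn ℝ ∞ (u n) HP) →
      (∀ n, ∀ z ∈ HP, z.im ^ 2 * lap (u n) z + lam n * u n z = 0) → IsQuantumErgodic Ω lam u →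
      ∀ (μ : Measure MW) [IsProbabilityMeasure μ], IsLocalLimit Ω lam u μ →
        IsStationary μ ∧ Integrable (fun f : MW => f 0 ^ 2) μ :=
  ⟨fun _ _ hs i2 => ⟨fun _ w t _ hB => Pool.Agent.U26.SG.lin_kur w t hs i2 hB,
      fun he => ⟨Pool.Agent.U26.SG.erg_lin hs he i2, Pool.Agent.U26.SG.erg_four4 hs he i2⟩⟩,
    fun _ hΩ hHP hne hA _ hpos hlam _ hu heq hqe _ _ hμ =>
      Pool.Agent.U26.SG.hyp_st hΩ hHP hne hA hpos hlam hu heq hqe hμ⟩

end Pool.Agent.Results.MP_4fa179_mp.FourthMoments
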