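import Pool.Agent.U524.SN.HA

/-!
# Large values of the Benjamini-Schramm limits of eigenfunctions (MP_4fa179_mp)

The setting is that of the file `DirectionPairs` of MP_4fa179_mp: eigenfunctions on a hyperbolic
surface of finite area, with the definitions of `Pool.Agent.N661.BH.Stm` and
`Pool.Agent.N661.BR.Defs`. The hyperbolic plane is the half plane `HP` with area measure
`dx dy / y²`. The `u n` are arbitrary quantum ergodic eigenfunctions, `λ_n → ∞`.

For the random wave `f(0)` is unbounded. The theorem gives lower bounds for the large values of `u n`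
and of the Benjamini-Schramm limits.
(1) Let `M > 0`. If the area of `{|u n| > M}` is small, then the truncated mass `∫ min(u², M²)` is at
most `(M²/2 + ε) area Ω`. (So `liminf area {|u n| > M} > 0` for every `M < √2` if no mass is lost in
the limit, that is, if the squares of the `u n` are uniformly integrable.) Nothing is assumed about
the limits; isotropic plane waves attain the constant.
(2) Let `μ` be a limit point and `μ = ∫ κ_s dP(s)`, `κ_s` translation invariant and ergodic with
covariance `m_s cov ν_s`; `m_s` is the local mass and `ν_s` the law of the direction of the momentum.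
Then for almost every `s` the essential supremum of `f(0)²` for the law `κ_s` is at least
`m_s (4 - 2 parallel ν_s)`: twice the local mass for a plane wave, and four times the local mass if
there are no plane waves in `κ_s`.
(3) If no mass is lost and there are no plane waves (`parallel ν_s = 0` almost surely), then for every
finite linear combination `ℓ` of values of `f` the essential supremum of `ℓ²` for almost every `κ_s`
is at least four times the variance of `ℓ` for the random wave; and for `M < 2` the area of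
`{|u n| > M}` is bounded below along the subsequence.

The theorem is the counterpart of the file `LargeValues` of MP_6b977f_mp for hyperbolic surfaces; the
proof is explained there.
-/

set_option autoImplicit false
open MeasureTheory Filter Topology ProbabilityTheory
open scoped ContDiff ENNReal

namespace Pool.Agent.Results.MP_4fa179_mp.LargeValues

open Pool.Agent.W745.RW (lap)
open Pool.Agent.N661.BR (MW lin J0 IsStationary IsErgodic cov parallel)
open Pool.Agent.N661.BH (HP IsQuantumErgodic area loc frames)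

noncomputable section

/-- the hyperbolic area of a set in the half plane -/
def harea (A : Set ℂ) : ℝ := ∫ z in A, 1 / z.im ^ 2

/-- the laws of the functions `u (σ n)`, seen in a random orthonormal frame at a random point of `Ω`
at the scale of the wavelength, converge to `μ`, in the sense of convergence of all finite
dimensional distributions (stated in terms of characteristic functions) -/
def ConvergesAlong (σ : ℕ → ℕ) (Ω : Set ℂ) (lam : ℕ → ℝ) (u : ℕ → ℂ → ℝ)
    (μ : Measure MW) : Prop :=
  StrictMono σ ∧ ∀ (k : ℕ) (w : Fin k → ℂ) (t : Fin k → ℝ),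
    Tendsto (fun n => (area Ω fun z => frames (fun v => Complex.exp (Complex.I *
        ((∑ j, t j * loc (lam (σ n)) (u (σ n)) z (v j) : ℝ) : ℂ))) w) / area Ω fun _ => 1) atTop
      (𝓝 (∫ f, Complex.exp (Complex.I * (lin w t f : ℝ)) ∂μ))

/-- the variance of `∑ t_j f (w_j)` for the isotropic random wave -/
def variance {k : ℕ} (w : Fin k → ℂ) (t : Fin k → ℝ) : ℝ := ∑ i, ∑ j, t i * t j * J0 ‖w i - w j‖

/-- **Result.** See the head of the file. -/
theorem result (Ω : Set ℂ) (hΩ : IsOpen Ω) (hHP : Ω ⊆ HP) (hne : Ω.Nonempty)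
    (hA : IntegrableOn (fun z : ℂ => 1 / z.im ^ 2) Ω)
    (lam : ℕ → ℝ) (hpos : ∀ n, 0 < lam n) (hlam : Tendsto lam atTop atTop)
    (u : ℕ → ℂ → ℝ) (hu : ∀ n, ContDiffOn ℝ ∞ (u n) HP)
    (heq : ∀ n, ∀ z ∈ HP, z.im ^ 2 * lap (u n) z + lam n * u n z = 0)
    (hqe : IsQuantumErgodic Ω lam u) :
    -- (1) the truncated mass
    (∀ M ε : ℝ, 0 < ε → ∃ δ : ℝ, 0 < δ ∧ ∀ᶠ n in atTop,
      harea {z | z ∈ Ω ∧ M < |u n z|} ≤ δ →
        ∫ z in Ω, min (u n z ^ 2) (M ^ 2) * (1 / z.im ^ 2) ≤ (M ^ 2 / 2 + ε) * harea Ω) ∧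
    ∀ (σ : ℕ → ℕ) (μ : Measure MW), IsProbabilityMeasure μ → ConvergesAlong σ Ω lam u μ →
      ∀ (S : Type) (_ : MeasurableSpace S) (P : Measure S) (_ : IsProbabilityMeasure P)
        (κ : Kernel S MW) (_ : IsMarkovKernel κ) (m : S → ℝ) (ν : Kernel S ℝ)
        (_ : IsMarkovKernel ν), P.bind κ = μ →
        (∀ᵐ s ∂P, IsStationary (κ s) ∧ IsErgodic (κ s)) →
        (∀ᵐ s ∂P, ∀ w w' : ℂ, ∫ f : MW, f w * f w' ∂(κ s) = m s * cov (ν s) (w - w')) →
        -- (2) the components of the limit points
        (∀ᵐ s ∂P, ∀ M : ℝ, (∀ᵐ f : MW ∂(κ s), |f 0| ≤ M) →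
          m s * (4 - 2 * parallel (ν s)) ≤ M ^ 2) ∧
        -- (3) no plane waves
        (∫ f : MW, f 0 ^ 2 ∂μ = 1 → (∀ᵐ s ∂P, parallel (ν s) = 0) →
          (∀ (k : ℕ) (w : Fin k → ℂ) (t : Fin k → ℝ) (M : ℝ), M ^ 2 < 4 * variance w t →
            ∀ᵐ s ∂P, 0 < κ s {f | M < |lin w t f|}) ∧
          ∀ M : ℝ, M < 2 → ∃ c : ℝ, 0 < c ∧ ∀ᶠ n in atTop,
            c ≤ harea {z | z ∈ Ω ∧ M < |u (σ n) z|}) := by
  refine ⟨fun M ε hε => Pool.Agent.U524.SN.qe_trunc_h hΩ hHP hne hA hpos hlam hu heq hqe M hε, ?_⟩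
  intro σ μ hμp hμ S _ P hP κ hκp m ν hνp hκ herg hν
  obtain ⟨h1, h2, _⟩ := Pool.Agent.N661.BH.limit_all hΩ hHP hne hA hpos hlam hu heq hqe hμp
    ⟨σ, hμ⟩
  refine ⟨Pool.Agent.U524.SN.comp_sup h1 h2 hκ m ν herg hν, ?_⟩
  intro hvar hpar
  have h3 := Pool.Agent.N661.BR.ergodic_case3 h1 hvar hκ m ν (by
    filter_upwards [hpar, hν] with s a b
    exact ⟨inferInstance, a, b⟩) herg
  have h4 : ∀ (k : ℕ) (w : Fin k → ℂ) (t : Fin k → ℝ) (M : ℝ), M ^ 2 < 4 * variance w t →
      ∀ᵐ s ∂P, 0 < κ s {f | M < |lin w t f|} := by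
    intro k w t M hM
    filter_upwards [h3, herg] with s hs hs1
    exact Pool.Agent.U524.SN.good_large hs1.1 hs.1 w t hM
  refine ⟨h4, ?_⟩
  intro M hM
  -- the value at one point
  set M' : ℝ := max M 0 with hM'
  have hM0 : 0 ≤ M' := le_max_right _ _
  have hM2 : M' < 2 := max_lt hM (by norm_num)
  have hlin : ∀ f : MW, lin (fun _ : Fin 1 => (0 : ℂ)) (fun _ => 1) f = f 0 := by
    intro f
    simp [lin]
  have hv : variance (fun _ : Fin 1 => (0 : ℂ)) (fun _ => 1) = 1 := by
    unfold variance
    simp [Pool.Agent.U26.SB.J0_zero]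
  have h5 := h4 1 (fun _ => 0) (fun _ => 1) M' (by rw [hv]; nlinarith)
  simp only [hlin] at h5
  have hm : MeasurableSet {f : MW | M' < |f 0|} :=
    measurableSet_lt measurable_const (measurable_norm.comp (Pool.Agent.N661.BR.meas_eval 0))
  have h6 : 0 < μ {f : MW | M' < |f 0|} := by
    rw [← hκ, Measure.bind_apply hm κ.measurable.aemeasurable, pos_iff_ne_zero]
    intro h0
    rw [lintegral_eq_zero_iff (κ.measurable_coe hm)] at h0
    obtain ⟨s, hs1, hs2⟩ := (h5.and h0).exists
    exact hs1.ne' hs2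
  have h7 : 0 < μ {f : MW | f 0 ∈ {x : ℝ | M < |x|}} :=
    lt_of_lt_of_le h6 (measure_mono fun f hf => by
      have hf' : M' < |f 0| := hf
      have hf2 : M < |f 0| := lt_of_le_of_lt (le_max_left M 0) hf'
      exact hf2)
  exact Pool.Agent.U524.SN.harea_G hΩ hHP hne hA hu hμ.2
    (isOpen_lt continuous_const continuous_abs) h7

end

end Pool.Agent.Results.MP_4fa179_mp.LargeValues
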