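import Pool.Agent.U34.BW.Main

/-!
# The random wave limit holds after arbitrarily small perturbations, in every dimension
(MP_4fa179_mp)

`LocSys m Ω T F φ om θ C₀` describes the real eigenfunctions `φ i` (orthonormal with respect to the
normalised measure) and the eigenvalues `om i ^ 2`, `0 ≤ om 0 ≤ om 1 ≤ ...`, of an operator on a metric
space `X`, in a part `Ω` of finite positive measure `m Ω`. `T r z p` is the point with the coordinate
`z / r` in a coordinate system centred at the point `p`. It is assumed that Weyl's law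
`om n ^ d = κ n + O(n ^ θ)` and the local Weyl law on the scale of the wavelength hold:
`∑_{i < n} φ i q φ i q' = ∑_{i < n} F (om i dist q q') + O(n ^ θ)` for `q, q'` near `p` and
`om n dist q q' ≤ R`.

Example: let `X = Ω` be a compact Riemannian manifold of dimension `d ≥ 2` (of negative curvature or
not), `m` the volume, `T r z p = exp_p (E_p z / r)` with a piecewise smooth orthonormal frame `E_p`
(for `r ≥ r₀ ‖z‖`; `T r z p = p` for the other `r`), `φ i` the eigenfunctions of the nonnegative
Laplacian `D`, `om i ^ 2` its eigenvalues. Then both laws are known with `θ = 1 - 1/d` (Avakumović,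
Levitan, Hörmander), and `F (|x|) = ∫ cos ⟨x, ω⟩ dσ(ω)` over the unit sphere `S^{d-1}` is the covariance
of the random wave `F_{unif,1}`.

For every `ε > 0`, every `σ > 1 - d (1 - θ) / 2` (in the example: `σ > 1/2`) and every sequence of
points `z 0, z 1, ...` of `ℝ^d` (for instance a dense sequence) there is a symmetric operator `k` with
`‖k a‖ ≤ ε ‖(1 + D) ^ σ a‖` such that `D + k` has a simple spectrum `lam' 0 < lam' 1 < ...`,
`|lam' j - om j ^ 2| ≤ ε`, and an orthonormal basis of eigenfunctions `v j` (real, finite combinations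
of the `φ i`, unique up to the signs), which all have the random wave as their local limit, without
exceptional subsequence: if `p` is a random point of `Ω`, or of any measurable part `A` of it, the
joint law of the values of `v j` at the points with the coordinates `z a / √(lam' j)`, `a < N`, in
the coordinate system centred at `p` tends to the centred Gaussian law with the covariances
`F ‖z a - z b‖`.
-/

set_option autoImplicit false

open MeasureTheory Filter Topology ProbabilityTheory
open scoped BoundedContinuousFunction NNReal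
open Pool.Agent.U34.BW

namespace Pool.Agent.Results.MP_4fa179_mp.SmallPerturbations

/-- **Berry's random wave conjecture after arbitrarily small perturbations of the Laplacian.** -/
theorem result (X : Type) [MeasurableSpace X] [MetricSpace X]
    [MeasurableSpace.CountablyGenerated X] (m : Measure X) (Ω : Set X) (d : ℕ) (hd : 2 ≤ d)
    (T : ℝ → EuclideanSpace ℝ (Fin d) → X → X) (F : ℝ → ℝ) (φ : ℕ → X → ℝ) (om : ℕ → ℝ) (θ : ℝ)
    (C₀ : ℝ≥0) (hθ0 : 0 ≤ θ) (hθ1 : θ < 1) (h : LocSys m Ω T F φ om θ C₀)
    (σ ε : ℝ) (hσ0 : 0 ≤ σ) (hσ : 1 - d * (1 - θ) / 2 < σ) (hε : 0 < ε)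
    (z : ℕ → EuclideanSpace ℝ (Fin d)) :
    (∀ N, (Matrix.of fun a b : Fin N => F ‖z a - z b‖).PosSemidef) ∧
    ∃ (k u : ℕ → ℕ → ℝ) (I : ℕ → Finset ℕ) (lam' : ℕ → ℝ),
      Perturb (fun i => om i ^ 2) ε σ k u I lam' ∧
      ∀ e : ℕ → ℝ, (∀ j, e j = 1 ∨ e j = -1) → ∀ A : Set X, MeasurableSet A →
        ∀ (N : ℕ) (G : EuclideanSpace ℝ (Fin N) →ᵇ ℝ),
        Tendsto (fun j => ∫ p in A, G (WithLp.toLp 2 fun a : Fin N =>
            e j * ∑ i ∈ I j, u j i * φ i (T (Real.sqrt (lam' j)) (z a) p))
            ∂(ProbabilityTheory.cond m Ω)) atTop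
          (𝓝 ((ProbabilityTheory.cond m Ω).real A *
            ∫ y, G y ∂(multivariateGaussian 0 (Matrix.of fun a b : Fin N => F ‖z a - z b‖)))) :=
  localfields hd hθ0 hθ1 hσ0 hσ hε h z

end Pool.Agent.Results.MP_4fa179_mp.SmallPerturbations
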