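import Pool.Agent.U39.SZ.X
import Pool.Agent.U39.SZ.Z

/-!
# Zeros of stationary waves on lines: the sharp universal bound (MP_4fa179_mp)

Every Benjamini-Schramm limit of Laplace eigenfunctions of a compact Riemannian manifold of
dimension `d`, rescaled to eigenvalue `1`, is the law of a stationary random field on `ℝ^d` with
smooth samples, `ΔF + F = 0` and `E F(0)² ≤ 1`. The theorem is about all such fields: it bounds the
mean number of zeros, on a segment of length `r`, of every polynomial `H` in the partial derivatives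
of `F`, for instance `H = F - c` (level sets) and `H = ∂_v F` (critical points along a line), both
of degree `1`. The bound is the best possible one for every dimension and every degree.

By the formula of Crofton the case `H = F`, in all directions `v`, bounds the mean volume of the
nodal set per unit volume by `Γ((d + 1) / 2) / (√π Γ(d / 2))`, that is `1 / 2` for `d = 2`; for the
isotropic Gaussian random wave in dimension `2` it is `1 / (2 √2)`.

Proof idea. (1) By the energy identity for stationary waves (project SW of helper139) all iterated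
derivatives in a unit direction `v` have second moments bounded by the same constant. Hence almost
surely the restrictions of the partial derivatives of `F` to the line extend to entire functions
`g_j`, with `E |g_j(x + i y)|² ≤ C exp(2 |y|)`. (2) Jensen's inequality on the disc of radius `N`
bounds `∑ log(N / |z|)`, over the real zeros of `H`, by the mean of `log |H|` on the circle minus
`log |H(0)|`, and the mean of `log |H|` is at most `m` times `2 N / π` plus a random variable with
bounded mean. (3) Take the expectation on the event `|H(0)| ≥ ε` and use the stationarity of the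
numbers of the cells `[i / M, (i + 1) / M)` which contain a zero. They are bounded by `M`, so that
the loss is at most `M P(0 < |H(0)| < ε)`, and `H(0) ≠ 0` almost surely if `H` is not identically
zero on the line. (4) Let `N → ∞`, `ε → 0` and `M → ∞`, in this order. No lower bound for the mean
of `log |H(0)|`, which can be `-∞`, is needed.
-/

set_option autoImplicit false
open MeasureTheory Filter Topology
open scoped ContDiff ENNReal

namespace Pool.Agent.Results.MP_4fa179_mp.ZerosOnLines

noncomputable section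

/-- the Laplacian `∑ ∂_i²` of `ℝ^d` -/
def laplacian {d : ℕ} (f : EuclideanSpace ℝ (Fin d) → ℝ) (y : EuclideanSpace ℝ (Fin d)) : ℝ :=
  ∑ i, fderiv ℝ (fun z => fderiv ℝ f z (EuclideanSpace.single i 1)) y (EuclideanSpace.single i 1)

/-- `F` is a stationary random field on `ℝ^d` with smooth samples, `ΔF + F = 0` and `E F(0)² < ∞`.
Stationary means: the shifted field has the same law, in the product of copies of `ℝ` indexed by
the points of `ℝ^d`. -/
structure IsStationaryWave {d : ℕ} {S : Type*} [MeasurableSpace S] (P : Measure S)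
    (F : S → EuclideanSpace ℝ (Fin d) → ℝ) : Prop where
  prob : IsProbabilityMeasure P
  measurable : ∀ y, Measurable fun s => F s y
  smooth : ∀ s, ContDiff ℝ ∞ (F s)
  eigen : ∀ s y, laplacian (F s) y + F s y = 0
  stationary : ∀ x : EuclideanSpace ℝ (Fin d),
    P.map (fun s y => F s (y + x)) = P.map (fun s y => F s y)
  moment : Integrable (fun s => F s 0 ^ 2) P

/-- partial derivatives: `partialD [i₁, …, iₖ] f = ∂_{i₁} ⋯ ∂_{iₖ} f`, and `partialD [] f = f` -/
def partialD {d : ℕ} : List (Fin d) → (EuclideanSpace ℝ (Fin d) → ℝ) →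
    EuclideanSpace ℝ (Fin d) → ℝ
  | [], f => f
  | i :: L, f => fun y => fderiv ℝ (partialD L f) y (EuclideanSpace.single i 1)

/-- the polynomial `Q` in the partial derivatives of `f`, of all orders, at the point `y` -/
def diffPoly {d : ℕ} (Q : MvPolynomial (List (Fin d)) ℝ) (f : EuclideanSpace ℝ (Fin d) → ℝ)
    (y : EuclideanSpace ℝ (Fin d)) : ℝ :=
  MvPolynomial.eval (fun L => partialD L f y) Q

/-- the restriction of `H = Q(f, ∂f, …)` to the line `x + ℝ v` -/
def onLine {d : ℕ} (Q : MvPolynomial (List (Fin d)) ℝ) (f : EuclideanSpace ℝ (Fin d) → ℝ)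
    (x v : EuclideanSpace ℝ (Fin d)) (t : ℝ) : ℝ := diffPoly Q f (x + t • v)

/-- the number (possibly `∞`) of the zeros of `h` in `[0, r)` -/
def zeroCount (h : ℝ → ℝ) (r : ℝ) : ℝ≥0∞ := ({t | t ∈ Set.Ico 0 r ∧ h t = 0} : Set ℝ).encard

open Pool.Agent.U39.SZ in
lemma partialD_eq {d : ℕ} (L : List (Fin d)) (f : EuclideanSpace ℝ (Fin d) → ℝ) :
    partialD L f = jt L f := by
  induction L with
  | nil => rfl
  | cons i L ih =>
    show (fun y => fderiv ℝ (partialD L f) y (EuclideanSpace.single i 1)) = _
    rw [ih]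
    rfl

open Pool.Agent.U39.SZ in
lemma diffPoly_eq {d : ℕ} (Q : MvPolynomial (List (Fin d)) ℝ)
    (f : EuclideanSpace ℝ (Fin d) → ℝ) (y : EuclideanSpace ℝ (Fin d)) :
    diffPoly Q f y = po Q f y := by
  unfold diffPoly po
  simp only [partialD_eq]

/-- **Result.** (1) Let `F` be a stationary wave on `ℝ^d`, let `H = Q(F, ∂F, ∂²F, …)` be a
polynomial of degree `m` in finitely many partial derivatives of `F`, of arbitrary orders, let
`x + ℝ v` be a line, `|v| = 1`, and let `I` be a measurable set of functions which is invariant under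
the translations along `v`. Then the mean number of zeros of `H` on each segment of length `r` of
the line, on the event that `F ∈ I` and `H` is not identically zero on the line, is at most
`m r / π` times the probability of this event. (The numbers of zeros are measurable, and so is the
event that `H` is not identically zero on the line.) (2) In every dimension `d ≥ 1` and for every
degree `m ≥ 1` equality can hold: there is a stationary wave `F` and a polynomial `Q` of degree `m`
such that every sample of `H` has exactly `m` zeros on a segment of length `π`. -/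
theorem result.{u} :
    (∀ (d : ℕ) (S : Type u) (_ : MeasurableSpace S) (P : Measure S)
      (F : S → EuclideanSpace ℝ (Fin d) → ℝ), IsStationaryWave P F →
      ∀ (Q : MvPolynomial (List (Fin d)) ℝ) (x v : EuclideanSpace ℝ (Fin d)), ‖v‖ = 1 →
      ∀ r : ℝ, 0 < r →
      Measurable (fun s => zeroCount (onLine Q (F s) x v) r) ∧
      MeasurableSet {s | ∃ t, onLine Q (F s) x v t ≠ 0} ∧
      ∀ I : Set (EuclideanSpace ℝ (Fin d) → ℝ), MeasurableSet I →
        (∀ (t : ℝ) (f : EuclideanSpace ℝ (Fin d) → ℝ), (fun y => f (y + t • v)) ∈ I ↔ f ∈ I) →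
        ∫⁻ s in {s | F s ∈ I ∧ ∃ t, onLine Q (F s) x v t ≠ 0},
          zeroCount (onLine Q (F s) x v) r ∂P ≤
        ENNReal.ofReal (Q.totalDegree * r / Real.pi) *
          P {s | F s ∈ I ∧ ∃ t, onLine Q (F s) x v t ≠ 0}) ∧
    (∀ d m : ℕ, 1 ≤ d → 1 ≤ m →
      ∃ (S : Type) (_ : MeasurableSpace S) (P : Measure S) (F : S → EuclideanSpace ℝ (Fin d) → ℝ)
        (Q : MvPolynomial (List (Fin d)) ℝ) (v : EuclideanSpace ℝ (Fin d)),
        IsStationaryWave P F ∧ Q.totalDegree = m ∧ ‖v‖ = 1 ∧
        ∀ s, (∃ t, onLine Q (F s) 0 v t ≠ 0) ∧ zeroCount (onLine Q (F s) 0 v) Real.pi = m) := by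
  have main : ∀ (d : ℕ) (S : Type u) (_ : MeasurableSpace S) (P : Measure S)
      (F : S → EuclideanSpace ℝ (Fin d) → ℝ), IsStationaryWave P F →
      ∀ (Q : MvPolynomial (List (Fin d)) ℝ) (x v : EuclideanSpace ℝ (Fin d)), ‖v‖ = 1 →
      ∀ r : ℝ, 0 < r →
      Measurable (fun s => zeroCount (onLine Q (F s) x v) r) ∧
      MeasurableSet {s | ∃ t, onLine Q (F s) x v t ≠ 0} ∧
      ∀ I : Set (EuclideanSpace ℝ (Fin d) → ℝ), MeasurableSet I →
        (∀ (t : ℝ) (f : EuclideanSpace ℝ (Fin d) → ℝ), (fun y => f (y + t • v)) ∈ I ↔ f ∈ I) →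
        ∫⁻ s in {s | F s ∈ I ∧ ∃ t, onLine Q (F s) x v t ≠ 0},
          zeroCount (onLine Q (F s) x v) r ∂P ≤
        ENNReal.ofReal (Q.totalDegree * r / Real.pi) *
          P {s | F s ∈ I ∧ ∃ t, onLine Q (F s) x v t ≠ 0} := by
    intro d S _ P F hF Q x v hv r hr
    have := hF.prob
    have e : ∀ s, onLine Q (F s) x v =
        fun t => Pool.Agent.U39.SZ.po Q (F s) (x + t • v) := fun s =>
      funext fun t => diffPoly_eq Q (F s) (x + t • v)
    simp only [e]
    have key := fun (I : Set (EuclideanSpace ℝ (Fin d) → ℝ)) (mI : MeasurableSet I)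
        (hI : ∀ (t : ℝ) (f : EuclideanSpace ℝ (Fin d) → ℝ), (fun y => f (y + t • v)) ∈ I ↔ f ∈ I) =>
      Pool.Agent.U39.SZ.main2 (P := P) hF.measurable hF.smooth hF.eigen hF.stationary hF.moment Q x
        hv.le hr mI hI
    obtain ⟨k1, k2, _⟩ := key Set.univ MeasurableSet.univ (fun t f => by simp)
    exact ⟨k1, k2, fun I mI hI => (key I mI hI).2.2⟩
  refine ⟨main, fun d m hd hm => ?_⟩
  obtain ⟨i0⟩ : Nonempty (Fin d) := ⟨⟨0, hd⟩⟩
  have hp := Real.pi_pos
  have ew : IsStationaryWave (AddCircle.haarAddCircle (T := 2 * Real.pi))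
      (Pool.Agent.U39.SZ.pw i0) := by
    refine ⟨inferInstance, Pool.Agent.U39.SZ.pw_meas i0, Pool.Agent.U39.SZ.pw_smooth i0,
      Pool.Agent.U39.SZ.pw_eq i0, Pool.Agent.U39.SZ.pw_stat i0, Pool.Agent.U39.SZ.pw_l2 i0⟩
  have nv : ‖(EuclideanSpace.single i0 (1 : ℝ) : EuclideanSpace ℝ (Fin d))‖ = 1 := by simp
  have e : ∀ s, onLine (Pool.Agent.U39.SZ.chQ d m) (Pool.Agent.U39.SZ.pw i0 s) 0
      (EuclideanSpace.single i0 (1 : ℝ)) = fun t => Pool.Agent.U39.SZ.po
        (Pool.Agent.U39.SZ.chQ d m) (Pool.Agent.U39.SZ.pw i0 s)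
        (0 + t • EuclideanSpace.single i0 (1 : ℝ)) := fun s =>
    funext fun t => diffPoly_eq _ _ _
  refine ⟨AddCircle (2 * Real.pi), inferInstance, AddCircle.haarAddCircle,
    Pool.Agent.U39.SZ.pw i0, Pool.Agent.U39.SZ.chQ d m, EuclideanSpace.single i0 (1 : ℝ), ew, ?_,
    nv, fun s => ?_⟩
  · refine le_antisymm (Pool.Agent.U39.SZ.chQ_deg d m) ?_
    have h1 := (Pool.Agent.U39.SZ.main2 (P := AddCircle.haarAddCircle (T := 2 * Real.pi))
      ew.measurable ew.smooth ew.eigen ew.stationary ew.moment (Pool.Agent.U39.SZ.chQ d m) 0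
      nv.le hp MeasurableSet.univ (fun t f => by simp)).2.2
    have h2 : {s | Pool.Agent.U39.SZ.pw i0 s ∈ (Set.univ : Set (EuclideanSpace ℝ (Fin d) → ℝ)) ∧
        ∃ t : ℝ, Pool.Agent.U39.SZ.po (Pool.Agent.U39.SZ.chQ d m) (Pool.Agent.U39.SZ.pw i0 s)
          (0 + t • EuclideanSpace.single i0 (1 : ℝ)) ≠ 0} = Set.univ := by
      ext s
      simp only [Set.mem_univ, true_and, Set.mem_setOf_eq, iff_true]
      exact Pool.Agent.U39.SZ.pw_nonzero i0 s
    rw [h2] at h1
    simp only [Pool.Agent.U39.SZ.pw_zeros i0 hm] at h1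
    rw [Measure.restrict_univ, lintegral_const, measure_univ, mul_one, mul_one,
      mul_div_assoc, div_self hp.ne', mul_one, ENNReal.ofReal_natCast] at h1
    exact_mod_cast h1
  · rw [e]
    exact ⟨Pool.Agent.U39.SZ.pw_nonzero i0 s, Pool.Agent.U39.SZ.pw_zeros i0 hm s⟩

end

end Pool.Agent.Results.MP_4fa179_mp.ZerosOnLines
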